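import Pool.Agent.Helper1.MT.DefsU
import Pool.Agent.Helper16.MT.Bridge
import Pool.Agent.Helper16.MT.Windows

/-!
# Project MT, module MU-K: translated groups of consecutive primes in arithmetic progression
-/

set_option autoImplicit false

open Finset

namespace Pool.Agent.Helper93.MT

open Pool.Agent.Helper1.MT (P pc BlocksLog Szemeredi Patterns)
open Pool.Agent.Helper16.MT

/-- The combinatorial part: a long progression of good windows with the same pattern. -/
theorem windows_ap (hS : Szemeredi) (r k C : ℕ) (δ : ℝ) (hδ : 0 < δ)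
    (hC : 8 * (r : ℝ) / δ ≤ C) :
    ∃ M1 : ℕ, ∀ M : ℕ, M1 ≤ M → ∀ (L : ℕ) (f : ℕ → ℕ), (∀ i < L, f i < M) →
      (∀ i j, i ≤ j → j < L → f i ≤ f j) → δ * M ≤ (sgl M L f).card →
      ((mlt M L f).card : ℝ) ≤ 1 / (4 * ((r : ℝ) + 1)) * (sgl M L f).card →
      ∃ (ι : ℕ → ℕ) (g' : ℕ) (gg : ℕ → ℕ), C * r < g' ∧ g' < M ∧ (∀ l < r, 1 ≤ gg l ∧ gg l < M) ∧
        (∀ s ≤ k, ι s + r < L ∧ f (ι s) = f (ι 0) + s * g' ∧
          f (ι s + r) ≤ f (ι s) + C * r ∧
          ∀ j ≤ r, f (ι s + j) = f (ι s) + ∑ l ∈ range j, gg l) := by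
  classical
  set δ' : ℝ := δ / (4 * ((C : ℝ) + 1) ^ r) with hδ'
  have hδ'pos : 0 < δ' := by positivity
  obtain ⟨N0, hN0⟩ := hS ((k + 1) * (C * r + 1) + 1) δ' hδ'pos
  obtain ⟨M1, hM1⟩ := exists_nat_ge (16 * (r : ℝ) / (3 * δ))
  refine ⟨max M1 N0, fun M hM L f hfM hmono hs hm => ?_⟩
  have hMr : 2 * (r : ℝ) ≤ 3 / 8 * (δ * M) := by
    have h1 : (M1 : ℝ) ≤ M := by exact_mod_cast (le_max_left _ _).trans hM
    have h2 := hM1.trans h1
    rw [div_le_iff₀ (by positivity)] at h2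
    linarith
  have hgood := card_good M L f r C hfM hmono
  have hmany : δ * M / 4 ≤ (good M L f r C).card := by
    have h3 : ((sgl M L f).card : ℝ) ≤ (good M L f r C).card + r + r * (mlt M L f).card +
      r * (((M / (C + 1) : ℕ) : ℝ) + 1) := by exact_mod_cast hgood
    have h4 : (((M / (C + 1) : ℕ) : ℝ)) ≤ (M : ℝ) / (C + 1) := by
      have := @Nat.cast_div_le ℝ _ _ _ M (C + 1)
      simpa using this
    have h5 : (r : ℝ) * ((M : ℝ) / (C + 1)) ≤ (sgl M L f).card / 8 := by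
      have h6 : 8 * (r : ℝ) ≤ δ * (C + 1) := by
        rw [div_le_iff₀ hδ] at hC
        nlinarith
      have h7 : (r : ℝ) * ((M : ℝ) / (C + 1)) ≤ δ * M / 8 := by
        rw [← mul_div_assoc, div_le_div_iff₀ (by positivity) (by norm_num)]
        have hM0' : (0 : ℝ) ≤ M := by positivity
        nlinarith
      linarith
    have h8 : (r : ℝ) * (mlt M L f).card ≤ (sgl M L f).card / 4 := by
      have h9 : (r : ℝ) * (mlt M L f).card ≤
          r * (1 / (4 * ((r : ℝ) + 1)) * (sgl M L f).card) :=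
        mul_le_mul_of_nonneg_left hm (by positivity)
      have h10 : r * (1 / (4 * ((r : ℝ) + 1)) * (sgl M L f).card) ≤ (sgl M L f).card / 4 := by
        have h11 : (r : ℝ) / (r + 1) ≤ 1 := by
          rw [div_le_one (by positivity)]; linarith
        have h12 : r * (1 / (4 * ((r : ℝ) + 1)) * (sgl M L f).card) =
            (r : ℝ) / (r + 1) * ((sgl M L f).card / 4) := by
          field_simp
        rw [h12]
        have h13 : (0 : ℝ) ≤ ((sgl M L f).card : ℝ) / 4 := by positivity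
        nlinarith
      linarith
    have h14 : (r : ℝ) * (((M / (C + 1) : ℕ) : ℝ)) ≤ r * ((M : ℝ) / (C + 1)) :=
      mul_le_mul_of_nonneg_left h4 (by positivity)
    nlinarith
  -- the pigeonhole principle
  let F : ℕ → (Fin r → Fin (C + 1)) := fun i j =>
    Fin.ofNat (C + 1) (f (i + j + 1) - f (i + j))
  obtain ⟨g, -, hg⟩ := Finset.exists_le_card_fiber_of_nsmul_le_card_of_maps_to
    (s := good M L f r C) (t := (univ : Finset (Fin r → Fin (C + 1)))) (f := F) (b := δ' * M)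
    (fun i _ => mem_univ _) ⟨fun _ => 0, mem_univ _⟩ (by
      rw [card_univ, Fintype.card_fun, Fintype.card_fin, Fintype.card_fin, nsmul_eq_mul]
      push_cast
      have : ((C : ℝ) + 1) ^ r * (δ' * M) = δ * M / 4 := by
        rw [hδ']
        field_simp
      rw [this]
      exact hmany)
  set Fi := (good M L f r C).filter (fun i => F i = g) with hFi
  have hmemgood : ∀ i ∈ Fi, i < L ∧ i + r < L ∧ (∀ j ≤ r, f (i + j) ∈ sgl M L f) ∧
      ∀ j < r, f (i + j + 1) ≤ f (i + j) + C := by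
    intro i hi
    simp only [hFi, good, mem_filter, mem_range] at hi
    exact ⟨hi.1.1, hi.1.2.1, hi.1.2.2.1, hi.1.2.2.2⟩
  have hinj : Set.InjOn f Fi := by
    intro i hi i' hi' h
    have h1 := hmemgood i hi
    have h2 := hmemgood i' hi'
    rcases Nat.lt_trichotomy i i' with hlt | heq | hlt
    · have := sgl_lt hmono (h1.2.2.1 0 (Nat.zero_le _)) (show i + 0 < i' by omega) h2.1
      simp only [Nat.add_zero] at this
      omega
    · exact heq
    · have := sgl_lt hmono (h2.2.2.1 0 (Nat.zero_le _)) (show i' + 0 < i by omega) h1.1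
      simp only [Nat.add_zero] at this
      omega
  have hAsub : Fi.image f ⊆ range M := by
    intro v hv
    obtain ⟨i, hi, rfl⟩ := mem_image.1 hv
    exact mem_range.2 (hfM i (hmemgood i hi).1)
  have hAcard : δ' * M ≤ (Fi.image f).card := by
    rw [card_image_of_injOn hinj]
    exact hg
  obtain ⟨a, d0, hd0, hap⟩ := hN0 M ((le_max_right _ _).trans hM) (Fi.image f) hAsub hAcard
  have hex : ∀ s, s ≤ k + 1 → ∃ i, i ∈ Fi ∧ f i = a + s * ((C * r + 1) * d0) := by
    intro s hs'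
    have h1 : s * (C * r + 1) < (k + 1) * (C * r + 1) + 1 :=
      Nat.lt_succ_of_le (Nat.mul_le_mul_right _ hs')
    obtain ⟨i, hi, h2⟩ := mem_image.1 (hap _ h1)
    exact ⟨i, hi, by rw [h2, mul_assoc]⟩
  choose! ι hι1 hι2 using hex
  -- the pattern
  let gg : ℕ → ℕ := fun l => if h : l < r then (g ⟨l, h⟩ : ℕ) else 1
  have hstep : ∀ i ∈ Fi, ∀ l < r, f (i + l + 1) = f (i + l) + gg l ∧ f (i + l) < f (i + l + 1) := by
    intro i hi l hl
    obtain ⟨h1, h2, h3, h4⟩ := hmemgood i hi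
    have hlt : f (i + l) < f (i + l + 1) := sgl_lt hmono (h3 l hl.le) (by omega) (by omega)
    refine ⟨?_, hlt⟩
    have hFg : F i = g := by
      simp only [hFi, mem_filter] at hi
      exact hi.2
    have hval : (g ⟨l, hl⟩ : ℕ) = f (i + l + 1) - f (i + l) := by
      rw [← hFg]
      change ((Fin.ofNat (C + 1) (f (i + l + 1) - f (i + l))) : ℕ) = _
      rw [Fin.val_ofNat]
      apply Nat.mod_eq_of_lt
      have := h4 l hl
      omega
    have : gg l = f (i + l + 1) - f (i + l) := by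
      simp only [gg, dif_pos hl, hval]
    omega
  have hsum : ∀ i ∈ Fi, ∀ j ≤ r, f (i + j) = f i + ∑ l ∈ range j, gg l := by
    intro i hi j
    induction j with
    | zero => intro _; simp
    | succ j ih =>
      intro hj
      have h1 := ih (by omega)
      have h2 := (hstep i hi j (by omega)).1
      rw [sum_range_succ, show i + (j + 1) = i + j + 1 by omega]
      omega
  have hsumle : ∀ i ∈ Fi, ∀ j ≤ r, f (i + j) ≤ f i + C * j := by
    intro i hi j
    induction j with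
    | zero => intro _; simp
    | succ j ih =>
      intro hj
      have h1 := ih (by omega)
      have h2 := (hmemgood i hi).2.2.2 j (by omega)
      rw [show i + (j + 1) = i + j + 1 by omega, Nat.mul_succ]
      omega
  refine ⟨ι, (C * r + 1) * d0, gg, ?_, ?_, ?_, ?_⟩
  · have : (C * r + 1) * 1 ≤ (C * r + 1) * d0 := Nat.mul_le_mul_left _ hd0
    omega
  · have h1 := hι2 (k + 1) le_rfl
    have h2 := hfM _ (hmemgood _ (hι1 (k + 1) le_rfl)).1
    have h3 : (C * r + 1) * d0 ≤ (k + 1) * ((C * r + 1) * d0) :=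
      Nat.le_mul_of_pos_left _ (Nat.succ_pos k)
    omega
  · intro l hl
    obtain ⟨h1, h2⟩ := hstep _ (hι1 0 (Nat.zero_le _)) l hl
    have h3 := hmemgood _ (hι1 0 (Nat.zero_le _))
    have h4 := hfM (ι 0 + l + 1) (by omega)
    omega
  · intro s hs'
    have hmem := hι1 s (by omega)
    refine ⟨(hmemgood _ hmem).2.1, ?_, hsumle _ hmem r le_rfl, hsum _ hmem⟩
    rw [hι2 s (by omega), hι2 0 (Nat.zero_le _)]
    ring

theorem patterns (hB : BlocksLog) (hS : Szemeredi) : Patterns := by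
  classical
  intro r k
  obtain ⟨δ, hδ, M0, hM⟩ := hB (1 / (4 * ((r : ℝ) + 1))) (by positivity)
  obtain ⟨C, hC⟩ := exists_nat_ge (8 * (r : ℝ) / δ)
  obtain ⟨M1, hM1⟩ := windows_ap hS r k C δ hδ hC
  obtain ⟨B0, c, x0, hc, hx⟩ := hM (max M0 M1) (le_max_left _ _)
  set M := max M0 M1 with hMdef
  refine ⟨M * (B0 + 1) + 2 * B0 + 1, min c (1 / (4 * ((M : ℝ) * B0 + 1))),
    max x0 (max 1 (4 * B0)), lt_min hc (by positivity), fun x hxx D hD hDx => ?_⟩
  have hx1 : 1 ≤ x := (le_max_left _ _).trans ((le_max_right _ _).trans hxx)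
  have hxB : 4 * (B0 : ℝ) ≤ x := (le_max_right _ _).trans ((le_max_right _ _).trans hxx)
  have hlog : 0 ≤ Real.log x := Real.log_nonneg hx1
  have hlogx : Real.log x ≤ x := (Real.log_le_sub_one_of_pos (by linarith)).trans (by linarith)
  have hDc : (D : ℝ) ≤ c * Real.log x :=
    hDx.trans (mul_le_mul_of_nonneg_right (min_le_left _ _) hlog)
  have hDx' : (M : ℝ) * B0 * D ≤ x / 4 := by
    have h1 : (D : ℝ) ≤ 1 / (4 * ((M : ℝ) * B0 + 1)) * x :=
      (hDx.trans (mul_le_mul_of_nonneg_right (min_le_right _ _) hlog)).trans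
        (mul_le_mul_of_nonneg_left hlogx (by positivity))
    have h2 : (0 : ℝ) ≤ (M : ℝ) * B0 := by positivity
    have h3 : (M : ℝ) * B0 * D ≤ (M : ℝ) * B0 * (1 / (4 * ((M : ℝ) * B0 + 1)) * x) :=
      mul_le_mul_of_nonneg_left h1 h2
    refine h3.trans ?_
    have h4 : (M : ℝ) * B0 * (1 / (4 * ((M : ℝ) * B0 + 1)) * x) =
        ((M : ℝ) * B0 / ((M : ℝ) * B0 + 1)) * (x / 4) := by
      field_simp
    rw [h4]
    have h5 : (M : ℝ) * B0 / ((M : ℝ) * B0 + 1) ≤ 1 := by
      rw [div_le_one (by positivity)]; linarith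
    have h6 : 0 ≤ x / 4 := by linarith
    nlinarith
  obtain ⟨n, E, hn1, hn2, hDE, hEB, hq, hs, hm⟩ := hx x ((le_max_left _ _).trans hxx) D
    (by omega) hDc
  obtain ⟨p0, L, f, hp0, hp0', hfM, hmono, hloc, hcnt, hL⟩ := bridge n E M B0 (by omega) hq
  have hsgl : ((range M).filter (fun i => pc (n + i * E) (n + i * E + B0) = 1)) = sgl M L f := by
    unfold sgl
    apply Finset.filter_congr
    intro v hv
    rw [hcnt v (by simpa using hv)]
  have hmlt : ((range M).filter (fun i => 2 ≤ pc (n + i * E) (n + i * E + B0))) = mlt M L f := by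
    unfold mlt
    apply Finset.filter_congr
    intro v hv
    rw [hcnt v (by simpa using hv)]
  rw [hsgl] at hs hm
  rw [hmlt] at hm
  obtain ⟨ι, g', gg, hg1, hg2, hgg, hι⟩ := hM1 M (le_max_right _ _) L f hfM hmono hs hm
  have hle : M * E ≤ M * B0 * D := by
    rw [mul_assoc]
    exact Nat.mul_le_mul_left _ hEB
  have hMB : M * B0 * D ≤ (M * (B0 + 1) + 2 * B0 + 1) * D := by
    refine Nat.mul_le_mul_right _ ?_
    have : M * B0 ≤ M * (B0 + 1) := Nat.mul_le_mul_left _ (by omega)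
    omega
  refine ⟨fun s => p0 + ι s, g' * E, fun l => gg l * E, ?_, ?_, ?_, ?_, ?_, ?_, ?_, ?_⟩
  · have h1 : (n : ℝ) ≤ P (p0 + ι 0) := by
      exact_mod_cast hp0.trans (P_strictMono.monotone (by omega))
    exact hn1.trans h1
  · obtain ⟨h1, h2, h3, h4⟩ := hι k le_rfl
    obtain ⟨h5, h6⟩ := hloc (ι k + r) h1
    have h7 := hfM _ h1
    have h8 : f (ι k + r) * E ≤ M * E := Nat.mul_le_mul_right _ h7.le
    have h9 : P (p0 + ι k + r) ≤ n + M * B0 * D + B0 := by
      rw [show p0 + ι k + r = p0 + (ι k + r) by omega]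
      omega
    have h10 : ((P (p0 + ι k + r) : ℕ) : ℝ) ≤ n + M * B0 * D + B0 := by exact_mod_cast h9
    change ((P (p0 + ι k + r) : ℕ) : ℝ) ≤ 2 * x
    linarith
  · intro s hs'
    obtain ⟨h1, h2, h3, h4⟩ := hι s (by omega)
    obtain ⟨h1', h2', -, -⟩ := hι (s + 1) (by omega)
    change p0 + ι s + r < p0 + ι (s + 1)
    by_contra hcon
    have h5 : ι (s + 1) ≤ ι s + r := by omega
    have h6 := hmono _ _ h5 h1
    have h7 : (s + 1) * g' = s * g' + g' := Nat.succ_mul s g'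
    omega
  · obtain ⟨h1, -, -, -⟩ := hι k le_rfl
    change p0 + ι k + r ≤ p0 + ι 0 + _
    omega
  · exact hDE.trans (Nat.le_mul_of_pos_left _ (by omega))
  · exact ((Nat.mul_le_mul_right _ hg2.le).trans hle).trans hMB
  · intro j hj
    obtain ⟨h1, h2⟩ := hgg j hj
    exact ⟨hDE.trans (Nat.le_mul_of_pos_left _ h1),
      ((Nat.mul_le_mul_right _ h2.le).trans hle).trans hMB⟩
  · intro s hs' j hj
    obtain ⟨h1, h2, h3, h4⟩ := hι s hs'
    obtain ⟨h1', -, -, -⟩ := hι 0 (Nat.zero_le _)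
    obtain ⟨a1, a2⟩ := hloc (ι s + j) (by omega)
    obtain ⟨b1, b2⟩ := hloc (ι 0) (by omega)
    have h5 := h4 j hj
    rw [h2] at h5
    have h6 : f (ι s + j) * E = f (ι 0) * E + s * (g' * E) + ∑ l ∈ range j, gg l * E := by
      rw [h5, ← sum_mul]
      ring
    rw [h6] at a1 a2
    change |((P (p0 + ι s + j) : ℕ) : ℤ) - (((P (p0 + ι 0) : ℕ) : ℤ) + (s : ℤ) * ((g' * E : ℕ) : ℤ) +
      ∑ l ∈ range j, ((gg l * E : ℕ) : ℤ))| ≤ _
    rw [show p0 + ι s + j = p0 + (ι s + j) by omega]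
    have a1' : (n : ℤ) + (((f (ι 0) * E : ℕ) : ℤ) + (s : ℤ) * ((g' * E : ℕ) : ℤ) +
        ∑ l ∈ range j, ((gg l * E : ℕ) : ℤ)) ≤ ((P (p0 + (ι s + j)) : ℕ) : ℤ) := by
      exact_mod_cast a1
    have a2' : ((P (p0 + (ι s + j)) : ℕ) : ℤ) ≤ (n : ℤ) + (((f (ι 0) * E : ℕ) : ℤ) +
        (s : ℤ) * ((g' * E : ℕ) : ℤ) + ∑ l ∈ range j, ((gg l * E : ℕ) : ℤ)) + B0 := by
      exact_mod_cast a2
    have b1' : (n : ℤ) + ((f (ι 0) * E : ℕ) : ℤ) ≤ ((P (p0 + ι 0) : ℕ) : ℤ) := by exact_mod_cast b1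
    have b2' : ((P (p0 + ι 0) : ℕ) : ℤ) ≤ (n : ℤ) + ((f (ι 0) * E : ℕ) : ℤ) + B0 := by
      exact_mod_cast b2
    rw [abs_le]
    push_cast at a1' a2' b1' b2' ⊢
    have hM' : (0 : ℤ) ≤ (M : ℤ) * ((B0 : ℤ) + 1) := by positivity
    constructor
    · linarith
    · linarith

end Pool.Agent.Helper93.MT
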